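import Pool.Agent.H963.HT.Ob2

/-!
# MP_5c499f_an: Anosov diffeomorphisms homotopic to coarsely hyperbolic homeomorphisms
-/

set_option autoImplicit false

open scoped Manifold ContDiff Topology
open Set Filter

namespace Pool.Agent.Results.MP_5c499f_an.HomotopyIndices

open Pool.Agent.H721R2 Pool.Agent.H789R2.AN Pool.Agent.H223.CE
open Pool.Agent.H963.HT (HasIndex)

/-- **Anosov diffeomorphisms homotopic to a coarsely hyperbolic homeomorphism.**
Let `S` be a compact space homeomorphic to the closed connected manifold `M` (`r : M → S`), `P : X → S`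
its universal covering, with deck group `Γ`, acting by isometries of the proper metric space `X`, and
suppose that `X` is homeomorphic to Euclidean space (`e : X → E`).  Let `g` be a HOMEOMORPHISM of `S`,
with a lift `G` to `X` which is coarsely hyperbolic (for some `N ≥ 1` and `R`, `G^N` or `G^(-N)` at least
doubles the distances `≥ R`).  For example `g` can be a product of pseudo-Anosov homeomorphisms of
surfaces.  Let `f` be a `C¹` Anosov diffeomorphism of `M` such that `r ∘ f ∘ r⁻¹` is homotopic to `g`.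
`HasIndex e T i`: the total fixed point index of `T : X → X` is `i`.

(1) `f` has a lift `F` which induces the same automorphism of `Γ` as `G`, and for all `n ≥ 1`, `γ ∈ Γ` the lift
`γ⁻¹ Fⁿ` has only finitely many fixed points, their number is exactly the absolute value of the
total fixed point index of `γ⁻¹ Gⁿ`.  So the number of the fixed points of `fⁿ` in each Nielsen class
is determined by the homotopy class.

(2) If for every `n ≥ 1`, `γ ∈ Γ` some power `K ≥ 1` of the lift `γ⁻¹ Gⁿ` has total fixed point index of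
absolute value `< 2^K` (for example if all these indices are bounded), then `f` is topologically
transitive, `F` has global product structure, every lift of every iterate of `f` has at most one fixed
point, and all the total indices of the lifts `γ⁻¹ Gⁿ` are `0`, `1` or `-1`.

(3) Hence if the indices grow slowly as in (2) and one of them is not `0`, `1`, `-1`, then there is no
such `f`: no Anosov diffeomorphism of `M` is homotopic to `g`. -/
theorem result (E : Type*) [NormedAddCommGroup E] [NormedSpace ℝ E] [FiniteDimensional ℝ E]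
    (S : Type*) [TopologicalSpace S] [T2Space S] [CompactSpace S]
    (M : Type*) [TopologicalSpace M] [T2Space M] [CompactSpace M] [ConnectedSpace M]
    [ChartedSpace E M] [IsManifold 𝓘(ℝ, E) ∞ M] (r : M ≃ₜ S)
    (X : Type*) [MetricSpace X] [ProperSpace X] [SimplyConnectedSpace X]
    (Γ : Type*) [Group Γ] [MulAction Γ X] [IsIsometricSMul Γ X] [FaithfulSMul Γ X]
    (P : X → S) (hP : IsCoveringMap P) (hs : Function.Surjective P)
    (hΓ : ∀ x y : X, P x = P y ↔ ∃ γ : Γ, γ • x = y) (e : X ≃ₜ E)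
    (g : S ≃ₜ S) (G : X ≃ₜ X) (hG : ∀ x, P (G x) = g (P x)) (hCG : CoarselyHyperbolic G) :
    (∀ f : Diffeomorph 𝓘(ℝ, E) 𝓘(ℝ, E) M M 1,
      (∃ Es Eu : ∀ x : M, Submodule ℝ (TangentSpace 𝓘(ℝ, E) x), IsAnosov f Es Eu) →
      ContinuousMap.Homotopic (⟨g, g.continuous⟩ : C(S, S))
        ⟨fun m => r (f (r.symm m)), r.continuous.comp (f.continuous.comp r.symm.continuous)⟩ →
      ∃ (F : X ≃ₜ X) (φ : Γ ≃* Γ), (∀ x, P (F x) = r (f (r.symm (P x)))) ∧
        (∀ (γ : Γ) (x : X), F (γ • x) = φ γ • F x) ∧ (∀ (γ : Γ) (x : X), G (γ • x) = φ γ • G x) ∧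
        -- (1)
        (∀ n : ℕ, 1 ≤ n → ∀ γ : Γ, {x : X | F^[n] x = γ • x}.Finite ∧
          ∃ i : ℤ, HasIndex e (fun x => γ⁻¹ • G^[n] x) i ∧
            |i| = ({x : X | F^[n] x = γ • x}.ncard : ℤ)) ∧
        -- (2)
        ((∀ n : ℕ, 1 ≤ n → ∀ γ : Γ, ∃ K : ℕ, 1 ≤ K ∧ ∃ i : ℤ,
            HasIndex e ((fun x => γ⁻¹ • G^[n] x)^[K]) i ∧ |i| < 2 ^ K) →
          TopTransitive f ∧ (∀ x y, ∃! w, Asymp F x w ∧ Asymp F.symm y w) ∧
          ∀ n : ℕ, 1 ≤ n → ∀ γ : Γ, {x : X | F^[n] x = γ • x}.ncard ≤ 1 ∧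
            ∃ i : ℤ, HasIndex e (fun x => γ⁻¹ • G^[n] x) i ∧ |i| ≤ 1)) ∧
    -- (3)
    ((∀ n : ℕ, 1 ≤ n → ∀ γ : Γ, ∃ K : ℕ, 1 ≤ K ∧ ∃ i : ℤ,
        HasIndex e ((fun x => γ⁻¹ • G^[n] x)^[K]) i ∧ |i| < 2 ^ K) →
      (∃ n : ℕ, 1 ≤ n ∧ ∃ (γ : Γ) (i : ℤ), HasIndex e (fun x => γ⁻¹ • G^[n] x) i ∧ 2 ≤ |i|) →
      ¬ ∃ f : Diffeomorph 𝓘(ℝ, E) 𝓘(ℝ, E) M M 1,
        (∃ Es Eu : ∀ x : M, Submodule ℝ (TangentSpace 𝓘(ℝ, E) x), IsAnosov f Es Eu) ∧
        ContinuousMap.Homotopic (⟨g, g.continuous⟩ : C(S, S))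
          ⟨fun m => r (f (r.symm m)), r.continuous.comp (f.continuous.comp r.symm.continuous)⟩) := by
  obtain ⟨φ, hφ⟩ := Pool.Agent.H963.HT.exists_phi P hP hΓ g G hG
  refine ⟨fun f ⟨Es, Eu, hf⟩ hfg => ?_, fun hK ⟨n, hn, γ, i, hi, hi2⟩ => ?_⟩
  · obtain ⟨F, h1, h2, h3, h4⟩ := Pool.Agent.H963.HT.ob_main f g Es Eu hf r hfg P hP hs hΓ G hG φ
      hφ hCG e
    exact ⟨F, φ, h1, h2, hφ, h3, h4⟩
  · rintro ⟨f, ⟨Es, Eu, hf⟩, hfg⟩
    obtain ⟨F, -, -, -, h4⟩ := Pool.Agent.H963.HT.ob_main f g Es Eu hf r hfg P hP hs hΓ G hG φ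
      hφ hCG e
    obtain ⟨-, j, hj, hj2⟩ := (h4 hK).2.2 n hn γ
    rw [hi.unique hj] at hi2
    omega

end Pool.Agent.Results.MP_5c499f_an.HomotopyIndices
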