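import Pool.Agent.H827.RN.Geo
import Pool.Agent.H827.RN.Free
import Pool.Agent.H827.RN.Flat
import Pool.Agent.H827.RN.Simple
import Pool.Agent.H827.RN.Wid
import Pool.Agent.H827.RN.Wid2
import Pool.Agent.H827.RN.Pol2
import Pool.Agent.H827.RN.Eig
import Pool.Agent.H827.RN.W
import Pool.Agent.H827.RN.Cen
import Pool.Agent.H827.RN.P1
import Pool.Agent.H827.RN.Pol
import Pool.Graph.R_pool_sql_team_seeded_620a6dc7.Results.MP_5c499f_an.ReidemeisterNumbers
import Pool.Graph.R_seed8.TH289.L.P3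

/-!
# MP_5c499f_an: Anosov diffeomorphisms and residually torsion-free nilpotent groups
-/

set_option autoImplicit false

open scoped Manifold ContDiff Topology
open Set Filter

universe u v w

namespace Pool.Agent.Results.MP_5c499f_an.ResiduallyNilpotentGroups

open Pool.Agent.H721R2 Pool.Agent.H789R2.AN Pool.Agent.H223.CE Pool.Agent.H827.RN
open Pool.Agent.TH289.K (Expansive)

/-- The group is polycyclic: it is solvable and all its subgroups are finitely generated. -/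
def IsPolycyclic (G : Type*) [Group G] : Prop := Group.IsSolvable G ∧ ∀ S : Subgroup G, S.FG

/-- **Anosov diffeomorphisms and the fundamental group.**
Let `f` be an expansive homeomorphism of a compact Hausdorff space `M`, for instance an Anosov
diffeomorphism of a closed manifold.  Let `P : X → M` be a connected Galois covering with deck
group `Γ` (for instance the universal covering, `Γ = π₁(M)`) with a proper metric on `X` that is
invariant under `Γ`, and let `F` be a lift of `f` to `X`, inducing the automorphism `φ` of `Γ`.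

(I) Suppose that each lift `γ⁻¹Fⁿ` of each iterate `fⁿ`, `n ≥ 1`, to `X` has a fixed point (this
holds for hyperbolic automorphisms of infranilmanifolds).  Then the following holds.

(A) If a subgroup of finite index in `Γ` is residually torsion-free nilpotent (for instance a
subgroup of a right-angled Artin group), or polycyclic, then `Γ` is virtually nilpotent.

(B) Each residually torsion-free nilpotent quotient of each subgroup of finite index in `Γ` is
virtually nilpotent.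

(C) No subgroup of finite index in `Γ` maps onto a free group of rank two, i.e. `Γ` is not large.

(D) For each subgroup `Γ₁` of finite index in `Γ`, the finite simple non-commutative quotients of
`Γ₁` without fixed-point-free automorphism (by the classification of the finite simple groups: all)
have bounded order.

(W) For each subgroup `Γ₁` of finite index in `Γ` and each `p ≥ 1`, the factors of the lower
`p`-central series `LP Γ₁ p` of `Γ₁` are finite and of bounded order.  (So the pro-`p` completions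
of `Γ₁` have finite width.)

(D') For `n ≥ 1`, `fⁿ` has finitely many fixed points. If `φⁿ` is trivial modulo commutators and
`p`-th powers, `p ≥ 2`, i.e. on `H₁(Γ; ℤ/p)`, then each factor of the lower `p`-central series of
`Γ` has at most `# Fix(fⁿ)` elements (the first one is `H₁(Γ; ℤ/p)`), and each residually
torsion-free nilpotent quotient of `Γ` is nilpotent, of a class `c` with `2 ^ c ≤ # Fix(fⁿ)`.

(II) Let `f` be a `C¹` Anosov diffeomorphism of a closed connected manifold; then it is expansive.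
Suppose moreover that `F` is coarsely hyperbolic and that each unstable leaf of `X` is a closed
subset of `X`.  Then each lift of each iterate `fⁿ`, `n ≥ 1`, to `X` has a fixed point, so that
(I) applies, and

(E) if a subgroup of finite index in `Γ` is residually torsion-free nilpotent or polycyclic, and its
nilpotent subgroups are commutative (for instance a subgroup of a right-angled Artin group), or if a
subgroup of finite index in `Γ` is residually free (for instance a surface group or a product of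
free groups), then `f` is topologically conjugate to a hyperbolic automorphism of a flat manifold
`ℝᵏ/D`, i.e. of an infranilmanifold modelled on `ℝᵏ` (`IsFlatHyperbolic`). -/
theorem result (M : Type u) [TopologicalSpace M] [T2Space M] [CompactSpace M] (f : M ≃ₜ M)
    (X : Type v) [MetricSpace X] [ProperSpace X] [ConnectedSpace X]
    (Γ : Type v) [Group Γ] [MulAction Γ X] [IsIsometricSMul Γ X] [FaithfulSMul Γ X]
    (P : X → M) (hP : IsCoveringMap P) (hsurj : Function.Surjective P)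
    (hΓ : ∀ x y : X, P x = P y ↔ ∃ γ : Γ, γ • x = y)
    (F : X ≃ₜ X) (hF : ∀ x, P (F x) = f (P x))
    (φ : Γ ≃* Γ) (hφ : ∀ (γ : Γ) (x : X), F (γ • x) = φ γ • F x) :
    (Expansive f → (∀ n : ℕ, 1 ≤ n → ∀ γ : Γ, ∃ x : X, F^[n] x = γ • x) →
      ((∃ Γ₁ : Subgroup Γ, Γ₁.FiniteIndex ∧ (RTFN Γ₁ ∨ IsPolycyclic Γ₁)) →
        Group.IsVirtuallyNilpotent Γ) ∧
      (∀ Γ₁ : Subgroup Γ, Γ₁.FiniteIndex → ∀ (N : Subgroup Γ₁) (_ : N.Normal), RTFN (Γ₁ ⧸ N) →
        Group.IsVirtuallyNilpotent (Γ₁ ⧸ N)) ∧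
      (∀ Γ₁ : Subgroup Γ, Γ₁.FiniteIndex → ∀ π : Γ₁ →* FreeGroup (Fin 2),
        ¬ Function.Surjective π) ∧
      (∀ Γ₁ : Subgroup Γ, Γ₁.FiniteIndex → ∃ B : ℕ, ∀ (Q : Type) [Group Q] [Finite Q]
        (π : Γ₁ →* Q), Function.Surjective π → IsSimpleGroup Q → (∃ a b : Q, a * b ≠ b * a) →
          (∀ ψ : Q ≃* Q, ∃ x : Q, x ≠ 1 ∧ ψ x = x) → Nat.card Q ≤ B) ∧
      (∀ Γ₁ : Subgroup Γ, Γ₁.FiniteIndex → ∀ p : ℕ, 0 < p → ∃ B : ℕ, ∀ k : ℕ,
        (LP Γ₁ p (k + 1)).relIndex (LP Γ₁ p k) ≠ 0 ∧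
        (LP Γ₁ p (k + 1)).relIndex (LP Γ₁ p k) ≤ B) ∧
      ∀ n : ℕ, 1 ≤ n → {m : M | f^[n] m = m}.Finite ∧ ∀ p : ℕ, 2 ≤ p →
        (∀ γ : Γ, γ⁻¹ * φ^[n] γ ∈ PC Γ p) →
          (∀ k : ℕ, (LP Γ p (k + 1)).relIndex (LP Γ p k) ≠ 0 ∧
            (LP Γ p (k + 1)).relIndex (LP Γ p k) ≤ {m : M | f^[n] m = m}.ncard) ∧
          ∀ (N : Subgroup Γ) (_ : N.Normal), RTFN (Γ ⧸ N) → Group.IsNilpotent (Γ ⧸ N) ∧
            2 ^ Group.nilpotencyClass (Γ ⧸ N) ≤ {m : M | f^[n] m = m}.ncard) ∧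
    ∀ (E : Type w) [NormedAddCommGroup E] [NormedSpace ℝ E] [FiniteDimensional ℝ E]
      [ConnectedSpace M] [ChartedSpace E M] [IsManifold 𝓘(ℝ, E) ∞ M]
      (g : Diffeomorph 𝓘(ℝ, E) 𝓘(ℝ, E) M M 1)
      (Es Eu : ∀ x : M, Submodule ℝ (TangentSpace 𝓘(ℝ, E) x)), IsAnosov g Es Eu →
      (∀ m, g m = f m) →
      Expansive f ∧ (CoarselyHyperbolic F → (∀ x : X, IsClosed {y | Asymp F.symm x y}) →
        (∀ n : ℕ, 1 ≤ n → ∀ γ : Γ, ∃ x : X, F^[n] x = γ • x) ∧
        ∀ Γ₁ : Subgroup Γ, Γ₁.FiniteIndex →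
          ((RTFN Γ₁ ∨ IsPolycyclic Γ₁) ∧
            ∀ H : Subgroup Γ₁, Group.IsNilpotent H → ∀ x ∈ H, ∀ y ∈ H, x * y = y * x) ∨
            ResFree Γ₁ →
          IsFlatHyperbolic f) := by
  have key : Expansive f → (∀ n : ℕ, 1 ≤ n → ∀ γ : Γ, ∃ x : X, F^[n] x = γ • x) →
      ((∃ Γ₁ : Subgroup Γ, Γ₁.FiniteIndex ∧ (RTFN Γ₁ ∨ IsPolycyclic Γ₁)) →
        Group.IsVirtuallyNilpotent Γ) ∧
      (∀ Γ₁ : Subgroup Γ, Γ₁.FiniteIndex → ∀ (N : Subgroup Γ₁) (_ : N.Normal), RTFN (Γ₁ ⧸ N) →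
        Group.IsVirtuallyNilpotent (Γ₁ ⧸ N)) ∧
      (∀ Γ₁ : Subgroup Γ, Γ₁.FiniteIndex → ∀ π : Γ₁ →* FreeGroup (Fin 2),
        ¬ Function.Surjective π) ∧
      (∀ Γ₁ : Subgroup Γ, Γ₁.FiniteIndex → ∃ B : ℕ, ∀ (Q : Type) [Group Q] [Finite Q]
        (π : Γ₁ →* Q), Function.Surjective π → IsSimpleGroup Q → (∃ a b : Q, a * b ≠ b * a) →
          (∀ ψ : Q ≃* Q, ∃ x : Q, x ≠ 1 ∧ ψ x = x) → Nat.card Q ≤ B) ∧
      (∀ Γ₁ : Subgroup Γ, Γ₁.FiniteIndex → ∀ p : ℕ, 0 < p → ∃ B : ℕ, ∀ k : ℕ,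
        (LP Γ₁ p (k + 1)).relIndex (LP Γ₁ p k) ≠ 0 ∧
        (LP Γ₁ p (k + 1)).relIndex (LP Γ₁ p k) ≤ B) ∧
      ∀ n : ℕ, 1 ≤ n → {m : M | f^[n] m = m}.Finite ∧ ∀ p : ℕ, 2 ≤ p →
        (∀ γ : Γ, γ⁻¹ * φ^[n] γ ∈ PC Γ p) →
          (∀ k : ℕ, (LP Γ p (k + 1)).relIndex (LP Γ p k) ≠ 0 ∧
            (LP Γ p (k + 1)).relIndex (LP Γ p k) ≤ {m : M | f^[n] m = m}.ncard) ∧
          ∀ (N : Subgroup Γ) (_ : N.Normal), RTFN (Γ ⧸ N) → Group.IsNilpotent (Γ ⧸ N) ∧
            2 ^ Group.nilpotencyClass (Γ ⧸ N) ≤ {m : M | f^[n] m = m}.ncard := by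
    intro hexp hfix
    have hfree : ∀ (γ : Γ) (x : X), γ • x = x → γ = 1 := fun γ x h => free_of hP hΓ h
    have hfin : ∀ n : ℕ, 1 ≤ n → {m : M | f^[n] m = m}.Finite := fun n hn => fin_fix f hexp n hn
    have hcl : ∀ n : ℕ, 1 ≤ n → Finite (Quot (Tw (it φ n))) ∧
        Nat.card (Quot (Tw (it φ n))) ≤ {m | f^[n] m = m}.ncard := fun n hn =>
      classes_le hΓ hF hφ hfree n (hfix n hn) (hfin n hn)
    have hFG : Group.FG Γ := t_fg M X Γ P hP hsurj hΓ hfree
    refine ⟨?_, ?_, ?_, ?_, ?_, ?_⟩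
    · rintro ⟨Γ₁, h1, h2 | ⟨h2, h3⟩⟩
      · exact virt φ (fun n hn => (hcl n hn).1) Γ₁ h1 h2
      · exact virt_pol (t_pol (t_p1 (t_cen (t_w t_eig t_fi t_twfi)) t_fi) t_fi t_twfi) φ
          (fun n hn => (hcl n hn).1) Γ₁ h1 h2 h3
    · intro Γ₁ h1 N hN h2
      exact virt_quot φ (fun n hn => (hcl n hn).1) Γ₁ h1 (QuotientGroup.mk' N)
        (QuotientGroup.mk'_surjective N) h2
    · intro Γ₁ h1 π
      exact not_large t_free φ (fun n hn => (hcl n hn).1) Γ₁ h1 π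
    · intro Γ₁ h1
      exact simple_bound φ (hcl 1 le_rfl).1 Γ₁ h1
    · intro Γ₁ h1 p hp
      exact width_fi φ (fun n hn => (hcl n hn).1) Γ₁ h1 p hp
    · intro n hn
      have := (hcl n hn).1
      refine ⟨hfin n hn, fun p hp hpc => ⟨fun k => ?_, fun N hN hR => ?_⟩⟩
      · obtain ⟨h1, h2⟩ := width_le p (by omega) (it φ n) hpc k
        exact ⟨h1, h2.trans (hcl n hn).2⟩
      · obtain ⟨h1, h2⟩ := quot_class (it φ n) p hp hpc N hR
        exact ⟨h1, h2.trans (hcl n hn).2⟩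
  refine ⟨key, ?_⟩
  intro E _ _ _ _ _ _ g Es Eu hA hgf
  have hgf' : g.toHomeomorph = f := by
    ext m
    exact hgf m
  have hexp : Expansive f := hgf' ▸ Pool.Agent.TH289.L.expansive_of_anosov g Es Eu hA
  refine ⟨hexp, fun hCH hcl => ?_⟩
  have hfix : ∀ n : ℕ, 1 ≤ n → ∀ γ : Γ, ∃ x : X, F^[n] x = γ • x := by
    intro n hn γ
    have h1 := Pool.Agent.Results.MP_5c499f_an.ReidemeisterNumbers.result E M g Es Eu hA X Γ P hP
      hsurj hΓ F (fun x => by rw [hF, hgf]) φ hφ hCH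
    have h2 := (h1.1.out 1 3).1 hcl
    exact (h2 n hn γ).exists
  refine ⟨hfix, fun Γ₁ h1 h2 => ?_⟩
  have h3 : (RTFN Γ₁ ∨ IsPolycyclic Γ₁) ∧ ∀ H : Subgroup Γ₁, Group.IsNilpotent H → ∀ x ∈ H,
      ∀ y ∈ H, x * y = y * x := by
    rcases h2 with h2 | h2
    · exact h2
    · exact ⟨Or.inl (t_rf Γ₁ h2).1, (t_rf Γ₁ h2).2⟩
  exact flat E M f g Es Eu hA hgf X Γ P hP hsurj hΓ F hF φ hφ hCH hcl
    ((key hexp hfix).1 ⟨Γ₁, h1, h3.1⟩) Γ₁ h1 h3.2

end Pool.Agent.Results.MP_5c499f_an.ResiduallyNilpotentGroups
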