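import Pool.Agent.H244.Fac10

/-!
# MP_5c499f_an: expansive homeomorphisms and Anosov diffeomorphisms that are factors of affine maps of tori

Let `f x = A x + a` be an arbitrary affine map of a torus (`A` any integer matrix, not necessarily
invertible or hyperbolic) and let `h` be a semiconjugacy from `f` onto an expansive homeomorphism `g`
of a closed manifold `Y` of any dimension, for instance onto an Anosov diffeomorphism. Then `g` is
topologically conjugate to a hyperbolic infra-toral automorphism, and `h` is, up to this conjugacy,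
affine.
-/

set_option autoImplicit false

open Set Filter Topology

namespace Pool.Agent.Results.MP_5c499f_an.ToralFactors

open Pool.Agent.H779R2.To Pool.Agent.TH289.K

/-- **Expansive factors of affine maps of tori.**
Let `A` be ANY integer `n × n` matrix, `a` a point of the torus `(ℝ/ℤ)ⁿ` and `f x = A x + a`. Let `g`
be an expansive homeomorphism (for instance an Anosov diffeomorphism) of a compact Hausdorff space
`Y` and `h : (ℝ/ℤ)ⁿ → Y` a continuous map with `h ∘ f = g ∘ h`.

Then there are a matrix `B` in `GL(m, ℤ)` without eigenvalues of modulus one, an integer `m × n`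
matrix `L` of rank `m` with `L A = B L`, a vector `c` and a continuous `ℤᵐ`-periodic map
`P : ℝᵐ → Y` (i.e. a map of the torus `(ℝ/ℤ)ᵐ`), injective on all balls of some radius, such that
`h (v mod ℤⁿ) = P (L v + c)` and `g ∘ P = P ∘ B`; the periods of `P` are exactly the integer vectors
and the fibres of `P` are finite unions of `ℤᵐ`-orbits.

If moreover `Y` is a manifold (modelled on `E`) and `h` is surjective, then `m = dim Y`, and `g` is
topologically conjugate to the hyperbolic infra-toral automorphism induced by `B`: the map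
`P : ℝᵐ → Y` is a covering map onto `Y` whose deck transformations (which are transitive on the
fibres) are affine maps `x ↦ R x + d` with `R ∈ GL(m, ℤ)`. -/
theorem result (n : ℕ) (A : Matrix (Fin n) (Fin n) ℤ) (a : Fin n → AddCircle (1 : ℝ))
    (Y : Type*) [TopologicalSpace Y] [T2Space Y] [CompactSpace Y] (g : Y ≃ₜ Y) (hg : Expansive g)
    (h : C(Fin n → AddCircle (1 : ℝ), Y))
    (hfg : ∀ x, h (fun i => ∑ j, A i j • x j + a i) = g (h x)) :
    ∃ (m : ℕ) (B : Matrix (Fin m) (Fin m) ℤ) (L : Matrix (Fin m) (Fin n) ℤ) (c : Fin m → ℝ)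
      (P : (Fin m → ℝ) → Y), IsUnit B.det ∧ HypMat B ∧ L * A = B * L ∧
      (∀ y : Fin m → ℝ, ∃ v : Fin n → ℝ, (L.map (Int.cast : ℤ → ℝ)).mulVec v = y) ∧
      Continuous P ∧ (∀ v : Fin n → ℝ, h (fun i => (v i : AddCircle (1 : ℝ))) =
        P ((L.map (Int.cast : ℤ → ℝ)).mulVec v + c)) ∧
      (∀ w, g (P w) = P ((B.map (Int.cast : ℤ → ℝ)).mulVec w)) ∧
      (∀ d : Fin m → ℝ, (∀ w, P (w + d) = P w) ↔ ∃ z : Fin m → ℤ, d = fun i => (z i : ℝ)) ∧
      (∀ y, ∃ S : Finset (Fin m → ℝ), ∀ w, P w = y → ∃ s ∈ S, ∃ z : Fin m → ℤ,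
        w = s + fun i => (z i : ℝ)) ∧
      (∃ δ > 0, ∀ v w, ‖v - w‖ ≤ δ → P v = P w → v = w) ∧
      ∀ (E : Type*) [NormedAddCommGroup E] [NormedSpace ℝ E] [FiniteDimensional ℝ E]
        [ChartedSpace E Y], Function.Surjective h →
        m = Module.finrank ℝ E ∧ IsCoveringMap P ∧ Function.Surjective P ∧
        ∀ v w, P v = P w → ∃ (R : Matrix (Fin m) (Fin m) ℤ) (d : Fin m → ℝ), IsUnit R.det ∧
          w = (R.map (Int.cast : ℤ → ℝ)).mulVec v + d ∧
          ∀ x, P ((R.map (Int.cast : ℤ → ℝ)).mulVec x + d) = P x :=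
  Pool.Agent.H244.Fac.main A a g hg h hfg

end Pool.Agent.Results.MP_5c499f_an.ToralFactors
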